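import Mathlib

set_option autoImplicit false

/-! The Robin gap on the unit interval with `α = 1/10`. -/

namespace Pool.Agent.H751R3.Gap

open MeasureTheory Filter Topology Set

/-- positivity of a form with positive Gram determinant -/
theorem gram_pos {A B C a b : ℝ} (hA : 0 ≤ A) (hC : 0 ≤ C) (h : 0 < A * C - B ^ 2)
    (hab : a ≠ 0 ∨ b ≠ 0) : 0 < a ^ 2 * A + 2 * a * b * B + b ^ 2 * C := by
  have hA' : 0 < A := by
    rcases hA.eq_or_lt with h0 | h0
    · rw [← h0] at h; nlinarith [sq_nonneg B]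
    · exact h0
  have h1 : A * (a ^ 2 * A + 2 * a * b * B + b ^ 2 * C) =
      (a * A + b * B) ^ 2 + b ^ 2 * (A * C - B ^ 2) := by ring
  have h2 : 0 < A * (a ^ 2 * A + 2 * a * b * B + b ^ 2 * C) := by
    rw [h1]
    by_cases hb : b = 0
    · have ha : a ≠ 0 := by
        rcases hab with h3 | h3
        · exact h3
        · exact absurd hb h3
      rw [hb]
      have : 0 < (a * A) ^ 2 := by positivity
      linarith [this]
    · have : 0 < b ^ 2 := by positivity
      nlinarith [sq_nonneg (a * A + b * B), mul_pos this h]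
  exact (pos_iff_pos_of_mul_pos h2).1 hA'

/-- the interval -/
abbrev J : Set ℝ := Ioo (-(1 / 2)) (1 / 2)

theorem toInt (f : ℝ → ℝ) : ∫ x in J, f x = ∫ x in (-(1 / 2) : ℝ)..(1 / 2), f x := by
  rw [intervalIntegral.integral_of_le (by norm_num), integral_Ioc_eq_integral_Ioo]

theorem cs {v : ℝ → ℝ} (hv : ContDiff ℝ 1 v) {a b : ℝ} (hab : a < b) :
    (v b - v a) ^ 2 ≤ (b - a) * ∫ t in a..b, deriv v t ^ 2 := by
  have hd : Continuous (deriv v) := hv.continuous_deriv le_rfl
  have h0 : 0 < b - a := by linarith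
  set c := (v b - v a) / (b - a) with hc
  have h1 : ∫ t in a..b, deriv v t = v b - v a :=
    intervalIntegral.integral_deriv_eq_sub (fun x _ => (hv.differentiable one_ne_zero) x)
      (hd.intervalIntegrable _ _)
  have h2 : ∫ t in a..b, (deriv v t - c) ^ 2 =
      (∫ t in a..b, deriv v t ^ 2) - 2 * c * (v b - v a) + c ^ 2 * (b - a) := by
    have e : ∀ t, (deriv v t - c) ^ 2 = deriv v t ^ 2 - 2 * c * deriv v t + c ^ 2 := fun t => by ring
    simp_rw [e]
    rw [intervalIntegral.integral_add, intervalIntegral.integral_sub,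
      intervalIntegral.integral_const_mul, h1, intervalIntegral.integral_const, smul_eq_mul]
    · ring
    all_goals exact Continuous.intervalIntegrable (by fun_prop) _ _
  have h3 : 0 ≤ ∫ t in a..b, (deriv v t - c) ^ 2 :=
    intervalIntegral.integral_nonneg hab.le fun t _ => sq_nonneg _
  rw [h2] at h3
  have h4 : c * (b - a) = v b - v a := by rw [hc]; field_simp
  have h5 : (v b - v a) ^ 2 = (b - a) * (2 * c * (v b - v a) - c ^ 2 * (b - a)) := by
    rw [← h4]; ring
  rw [h5]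
  exact mul_le_mul_of_nonneg_left (by linarith) h0.le

theorem poincare {v : ℝ → ℝ} (hv : ContDiff ℝ 1 v) (h0 : v 0 = 0) :
    2 * ∫ x in J, v x ^ 2 ≤ ∫ x in J, deriv v x ^ 2 := by
  have hd : Continuous (deriv v) := hv.continuous_deriv le_rfl
  have hvc := hv.continuous
  set E := ∫ x in J, deriv v x ^ 2 with hE
  have hE0 : 0 ≤ E := integral_nonneg fun x => sq_nonneg _
  have hint : IntegrableOn (fun x => deriv v x ^ 2) J :=
    ((hd.pow 2).continuousOn.integrableOn_compact isCompact_Icc).mono_set Ioo_subset_Icc_self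
  have hsub : ∀ a b : ℝ, -(1 / 2) ≤ a → a ≤ b → b ≤ 1 / 2 → ∫ t in a..b, deriv v t ^ 2 ≤ E := by
    intro a b h1 h2 h3
    rw [intervalIntegral.integral_of_le h2, integral_Ioc_eq_integral_Ioo]
    refine setIntegral_mono_set hint (Eventually.of_forall fun x => sq_nonneg _) ?_
    exact (Ioo_subset_Ioo h1 h3).eventuallyLE
  have hpt : ∀ x ∈ J, v x ^ 2 ≤ 1 / 2 * E := by
    rintro x ⟨hx1, hx2⟩
    rcases lt_trichotomy x 0 with h | h | h
    · have h1 := cs hv h
      have h2 := hsub x 0 hx1.le h.le (by norm_num)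
      rw [h0, zero_sub, neg_sq, zero_sub] at h1
      refine h1.trans ?_
      exact mul_le_mul (by linarith) h2
        (intervalIntegral.integral_nonneg h.le fun t _ => sq_nonneg _) (by norm_num)
    · rw [h, h0, zero_pow two_ne_zero]; positivity
    · have h1 := cs hv h
      have h2 := hsub 0 x (by norm_num) h.le hx2.le
      rw [h0, sub_zero, sub_zero] at h1
      refine h1.trans ?_
      exact mul_le_mul (by linarith) h2
        (intervalIntegral.integral_nonneg h.le fun t _ => sq_nonneg _) (by norm_num)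
  have h1 : ∫ x in J, v x ^ 2 ≤ ∫ _ in J, 1 / 2 * E := by
    refine setIntegral_mono_on ?_ (integrableOn_const (by simp)) measurableSet_Ioo hpt
    exact ((hvc.pow 2).continuousOn.integrableOn_compact isCompact_Icc).mono_set
      Ioo_subset_Icc_self
  have h2 : ∫ _ in J, 1 / 2 * E = 1 / 2 * E := by
    rw [setIntegral_const, smul_eq_mul]
    simp [Measure.real]
    norm_num
  rw [h2] at h1
  linarith

theorem quad {u w : ℝ → ℝ} (hu : Continuous u) (hw : Continuous w) (a b : ℝ) :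
    ∫ x in J, (a * u x + b * w x) ^ 2 =
      a ^ 2 * (∫ x in J, u x ^ 2) + 2 * a * b * (∫ x in J, u x * w x) +
        b ^ 2 * ∫ x in J, w x ^ 2 := by
  have hi : ∀ f : ℝ → ℝ, Continuous f → IntegrableOn f J := fun f hf =>
    (hf.continuousOn.integrableOn_compact isCompact_Icc).mono_set Ioo_subset_Icc_self
  rw [← integral_const_mul, ← integral_const_mul, ← integral_const_mul,
    ← integral_add, ← integral_add]
  · congr 1
    funext x
    ring
  all_goals exact hi _ (by fun_prop)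

/-- first set -/
def C1 : Set ℝ := {t : ℝ | ∃ u : ℝ → ℝ, ContDiff ℝ 1 u ∧ 0 < (∫ x in J, u x ^ 2) ∧
      t = ((∫ x in J, deriv u x ^ 2) +
            1 / 10 * (u (-(1 / 2)) ^ 2 + u (1 / 2) ^ 2))
          / (∫ x in J, u x ^ 2)}

/-- Rayleigh quotients in a plane -/
def RS (u w : ℝ → ℝ) : Set ℝ := {s : ℝ | ∃ a b : ℝ, (a ≠ 0 ∨ b ≠ 0) ∧
        s = ((∫ x in J, deriv (fun y => a * u y + b * w y) x ^ 2) +
              1 / 10 * ((a * u (-(1 / 2)) + b * w (-(1 / 2))) ^ 2 +
                   (a * u (1 / 2) + b * w (1 / 2)) ^ 2))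
            / (∫ x in J, (a * u x + b * w x) ^ 2)}

/-- second set -/
def C2 : Set ℝ := {t : ℝ | ∃ u w : ℝ → ℝ, ContDiff ℝ 1 u ∧ ContDiff ℝ 1 w ∧
      0 < (∫ x in J, u x ^ 2) * (∫ x in J, w x ^ 2) - (∫ x in J, u x * w x) ^ 2 ∧
      IsLUB (RS u w) t}

theorem C1_glb : ∃ m : ℝ, IsGLB C1 m ∧ m ≤ 1 / 5 := by
  have hbdd : BddBelow C1 := by
    refine ⟨0, ?_⟩
    rintro t ⟨u, -, hN, rfl⟩
    have : 0 ≤ ∫ x in J, deriv u x ^ 2 := integral_nonneg fun x => sq_nonneg _
    positivity
  have hmem : (1 / 5 : ℝ) ∈ C1 := by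
    refine ⟨fun _ => 1, contDiff_const, ?_, ?_⟩
    · simp [Measure.real]
    · simp [Measure.real]
      norm_num
  exact ⟨sInf C1, isGLB_csInf ⟨_, hmem⟩ hbdd, csInf_le hbdd hmem⟩

theorem C2_lb {t : ℝ} (ht : t ∈ C2) : 2 ≤ t := by
  obtain ⟨u, w, hu, hw, hG, hL⟩ := ht
  obtain ⟨a, b, hab, h0⟩ : ∃ a b : ℝ, (a ≠ 0 ∨ b ≠ 0) ∧ a * u 0 + b * w 0 = 0 := by
    by_cases h : w 0 = 0
    · exact ⟨0, 1, Or.inr one_ne_zero, by rw [h]; ring⟩
    · exact ⟨w 0, -u 0, Or.inl h, by ring⟩
  have hv : ContDiff ℝ 1 (fun y => a * u y + b * w y) :=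
    (contDiff_const.mul hu).add (contDiff_const.mul hw)
  have h1 := poincare hv h0
  have h2 : 0 < ∫ x in J, (a * u x + b * w x) ^ 2 := by
    rw [quad hu.continuous hw.continuous]
    exact gram_pos (integral_nonneg fun x => sq_nonneg _) (integral_nonneg fun x => sq_nonneg _)
      hG hab
  refine le_trans ?_ (hL.1 ⟨a, b, hab, rfl⟩)
  rw [le_div_iff₀ h2]
  have h3 : 0 ≤ 1 / 10 * ((a * u (-(1 / 2)) + b * w (-(1 / 2))) ^ 2 +
                   (a * u (1 / 2) + b * w (1 / 2)) ^ 2) := by positivity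
  linarith

theorem C2_ne : C2.Nonempty := by
  have i1 : ∫ x in J, (x : ℝ) ^ 2 = 1 / 12 := by
    rw [toInt, integral_pow]; norm_num
  have i0 : ∫ _ in J, (1 : ℝ) ^ 2 = 1 := by
    simp [Measure.real]
    norm_num
  have i2 : ∫ x in J, (1 : ℝ) * x = 0 := by
    simp_rw [one_mul]
    rw [toInt, integral_id]; norm_num
  have hne : (RS (fun _ => 1) (fun x => x)).Nonempty := ⟨_, 1, 0, Or.inl one_ne_zero, rfl⟩
  have hbdd : BddAbove (RS (fun _ => 1) (fun x => x)) := by
    refine ⟨13, ?_⟩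
    rintro s ⟨a, b, hab, rfl⟩
    have h1 := quad (u := fun _ => (1 : ℝ)) (w := fun x => x) continuous_const continuous_id a b
    rw [i0, i2, i1] at h1
    have h2 : ∀ x : ℝ, deriv (fun y : ℝ => a * 1 + b * y) x = b := by
      intro x
      have : HasDerivAt (fun y : ℝ => a * 1 + b * y) (b * 1) x :=
        ((hasDerivAt_id x).const_mul b).const_add _
      rw [this.deriv, mul_one]
    simp only [h2]
    rw [h1]
    have h3 : 0 < a ^ 2 * 1 + 2 * a * b * 0 + b ^ 2 * (1 / 12) := by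
      rcases hab with h | h
      · have : 0 < a ^ 2 := by positivity
        nlinarith [sq_nonneg b]
      · have : 0 < b ^ 2 := by positivity
        nlinarith [sq_nonneg a]
    rw [div_le_iff₀ h3]
    have h4 : ∫ _ in J, b ^ 2 = b ^ 2 := by
      rw [setIntegral_const, smul_eq_mul]
      simp [Measure.real]
      norm_num
    rw [h4]
    nlinarith [sq_nonneg a, sq_nonneg b]
  refine ⟨_, fun _ => 1, fun x => x, contDiff_const, contDiff_id, ?_, isLUB_csSup hne hbdd⟩
  rw [i0, i1, i2]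
  norm_num

theorem C2_glb : ∃ m : ℝ, IsGLB C2 m ∧ 2 ≤ m :=
  ⟨sInf C2, isGLB_csInf C2_ne ⟨2, fun _ ht => C2_lb ht⟩, le_csInf C2_ne fun _ ht => C2_lb ht⟩

end Pool.Agent.H751R3.Gap
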