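import Mathlib
import Pool.Agent.Helper88.Gap.Fin
import Pool.Agent.H751R3.Gap.OneD

set_option autoImplicit false

/-! The min-max values of `S06226` are the ones of the starting repository's `Helper88.Gap`. -/

namespace Pool.Agent.H751R3.Gap

open MeasureTheory Filter Topology Set
open Pool.Agent.Helper88.Gap

variable {μ ν : Measure (En 2)} {V : En 2 → ℝ} {α : ℝ}

/-- first set -/
def B1 (μ ν : Measure (En 2)) (V : En 2 → ℝ) (α : ℝ) : Set ℝ :=
  {t | ∃ u : En 2 → ℝ, ContDiff ℝ 1 u ∧ 0 < Nf μ u ∧ t = Qf μ ν V α u / Nf μ u}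

/-- Rayleigh quotients in a plane -/
def RS2 (μ ν : Measure (En 2)) (V : En 2 → ℝ) (α : ℝ) (u w : En 2 → ℝ) : Set ℝ :=
  {s | ∃ a b : ℝ, (a ≠ 0 ∨ b ≠ 0) ∧
    s = Qf μ ν V α (fun y => a * u y + b * w y) / Nf μ (fun y => a * u y + b * w y)}

/-- second set -/
def B2 (μ ν : Measure (En 2)) (V : En 2 → ℝ) (α : ℝ) : Set ℝ :=
  {t | ∃ u w : En 2 → ℝ, ContDiff ℝ 1 u ∧ ContDiff ℝ 1 w ∧
    0 < Nf μ u * Nf μ w - (∫ x, u x * w x ∂μ) ^ 2 ∧ IsLUB (RS2 μ ν V α u w) t}

theorem lset1_sub {r : ℝ} (hr : r ∈ lset μ ν V α 1) : r ∈ B1 μ ν V α := by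
  obtain ⟨W, hV1, hV2, hV3, rfl⟩ := hr
  have hVne : W ≠ ⊥ := by
    rintro rfl
    simp at hV1
  obtain ⟨v, hvV, hv⟩ := Submodule.exists_mem_ne_zero_of_ne_bot hVne
  have hN := hV3 v hvV hv
  have hall := (finrank_eq_one_iff_of_nonzero' (⟨v, hvV⟩ : W) (by
    intro h
    exact hv (congrArg Subtype.val h))).mp hV1
  have hset : {q : ℝ | ∃ w ∈ W, w ≠ 0 ∧ q = Qf μ ν V α w / Nf μ w} =
      {Qf μ ν V α v / Nf μ v} := by
    ext q
    constructor
    · rintro ⟨w, hw, hw0, rfl⟩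
      obtain ⟨c, hc⟩ := hall ⟨w, hw⟩
      have hcw : c • v = w := congrArg Subtype.val hc
      subst hcw
      have hc : c ≠ 0 := by
        rintro rfl
        exact hw0 (zero_smul _ _)
      rw [Nf_smul, Qf_smul _ _ _ _ _ (hV2 v hvV), mem_singleton_iff]
      field_simp
    · rintro rfl
      exact ⟨v, hvV, hv, rfl⟩
  exact ⟨v, hV2 v hvV, hN, by rw [hset, csSup_singleton]⟩

theorem glb1 (hμ : Good μ) (hV : Pot μ V) (hα : 0 ≤ α)
    (hex : ∃ v : En 2 → ℝ, ContDiff ℝ 1 v ∧ 0 < Nf μ v) :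
    IsGLB (B1 μ ν V α) (lamf μ ν V α 1) := by
  obtain ⟨v0, hv0, hN0⟩ := hex
  constructor
  · rintro t ⟨u, hu, hN, rfl⟩
    exact csInf_le (lset_bdd hμ hV hα 1) (lset1_mem hu hN)
  · intro b hb
    exact le_csInf ⟨_, lset1_mem hv0 hN0⟩ fun r hr => hb (lset1_sub hr)

theorem gram_pos' (hμ : Good μ) {u w : En 2 → ℝ} (hu : Continuous u) (hw : Continuous w)
    (hG : 0 < Nf μ u * Nf μ w - (∫ x, u x * w x ∂μ) ^ 2) {a b : ℝ} (hab : a ≠ 0 ∨ b ≠ 0) :
    0 < Nf μ (a • u + b • w) := by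
  rw [Nf_quad hμ hu hw]
  exact gram_pos (Nf_nonneg _ _) (Nf_nonneg _ _) hG hab

theorem B2_sub (hμ : Good μ) {t : ℝ} (ht : t ∈ B2 μ ν V α) : t ∈ lset μ ν V α 2 := by
  obtain ⟨u, w, hu, hw, hG, hL⟩ := ht
  have hli : LinearIndependent ℝ ![u, w] := by
    rw [LinearIndependent.pair_iff]
    intro s t hst0
    by_contra hne
    have h1 : s ≠ 0 ∨ t ≠ 0 := by
      by_contra h; push Not at h; exact hne h
    have := gram_pos' hμ hu.continuous hw.continuous hG h1
    rw [hst0, Nf_zero] at this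
    exact lt_irrefl _ this
  refine ⟨Submodule.span ℝ {u, w}, ?_, ?_, ?_, ?_⟩
  · have h1 := finrank_span_eq_card hli
    have hr : Set.range ![u, w] = {u, w} := by
      ext v
      simp only [mem_range, Fin.exists_fin_two, Matrix.cons_val_zero, Matrix.cons_val_one,
        mem_insert_iff, mem_singleton_iff, eq_comm]
    rw [hr] at h1
    rw [h1]
    simp
  · intro v hv
    obtain ⟨s, t, rfl⟩ := Submodule.mem_span_pair.mp hv
    exact (contDiff_const.smul hu).add (contDiff_const.smul hw)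
  · intro v hv hv0
    obtain ⟨s, t, rfl⟩ := Submodule.mem_span_pair.mp hv
    apply gram_pos' hμ hu.continuous hw.continuous hG
    by_contra h
    push Not at h
    apply hv0
    rw [h.1, h.2]
    simp
  · have hset : {q : ℝ | ∃ v ∈ Submodule.span ℝ {u, w}, v ≠ 0 ∧ q = Qf μ ν V α v / Nf μ v} =
        RS2 μ ν V α u w := by
      ext q
      constructor
      · rintro ⟨v, hv, hv0, rfl⟩
        obtain ⟨s, t, rfl⟩ := Submodule.mem_span_pair.mp hv
        refine ⟨s, t, ?_, rfl⟩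
        by_contra h
        push Not at h
        apply hv0
        rw [h.1, h.2]
        simp
      · rintro ⟨a, b, hab, rfl⟩
        refine ⟨a • u + b • w, Submodule.mem_span_pair.mpr ⟨a, b, rfl⟩, ?_, rfl⟩
        exact ne_zero_of_Nf (gram_pos' hμ hu.continuous hw.continuous hG hab)
    rw [hset]
    exact (hL.csSup_eq ⟨_, 1, 0, Or.inl one_ne_zero, rfl⟩).symm

theorem lset2_sub (hμ : Good μ) (hν : Good ν) (hV : Pot μ V) (hα : 0 ≤ α) {r : ℝ}
    (hr : r ∈ lset μ ν V α 2) : r ∈ B2 μ ν V α := by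
  obtain ⟨W, hW, hc, hp, rfl⟩ := hr
  have hbdd := rq_bdd hμ hν hV hα hW hc hp
  have hfd : FiniteDimensional ℝ W := FiniteDimensional.of_finrank_pos (by omega)
  let b := (Module.finBasisOfFinrankEq ℝ W hW)
  set u : En 2 → ℝ := (b 0 : En 2 → ℝ) with hu
  set w : En 2 → ℝ := (b 1 : En 2 → ℝ) with hw
  have huV : u ∈ W := (b 0).2
  have hwV : w ∈ W := (b 1).2
  have hrep : ∀ v ∈ W, ∃ s t : ℝ, v = s • u + t • w := by
    intro v hv
    have := b.sum_repr ⟨v, hv⟩
    rw [Fin.sum_univ_two] at this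
    refine ⟨b.repr ⟨v, hv⟩ 0, b.repr ⟨v, hv⟩ 1, ?_⟩
    have h2 := congrArg Subtype.val this
    simpa using h2.symm
  have hli : ∀ s t : ℝ, s • u + t • w = 0 → s = 0 ∧ t = 0 := by
    intro s t hst
    have h1 := b.linearIndependent
    have h2 : s • b 0 + t • b 1 = 0 := by
      apply Subtype.ext
      simpa using hst
    have h3 := Fintype.linearIndependent_iff.mp h1 ![s, t] (by
      rw [Fin.sum_univ_two]; simpa using h2)
    exact ⟨by simpa using h3 0, by simpa using h3 1⟩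
  have hpos : ∀ s t : ℝ, (s ≠ 0 ∨ t ≠ 0) → 0 < Nf μ (s • u + t • w) := by
    intro s t hst
    refine hp _ (W.add_mem (W.smul_mem _ huV) (W.smul_mem _ hwV)) fun h => ?_
    obtain ⟨h1, h2⟩ := hli s t h
    rcases hst with h3 | h3
    · exact h3 h1
    · exact h3 h2
  have hu1 := hc u huV
  have hw1 := hc w hwV
  have hNu : 0 < Nf μ u := by
    have := hpos 1 0 (Or.inl one_ne_zero)
    simpa using this
  have hG : 0 < Nf μ u * Nf μ w - (∫ x, u x * w x ∂μ) ^ 2 := by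
    have h1 := hpos (-(∫ x, u x * w x ∂μ)) (Nf μ u) (Or.inr hNu.ne')
    rw [Nf_quad hμ hu1.continuous hw1.continuous] at h1
    have h2 : (-(∫ x, u x * w x ∂μ)) ^ 2 * Nf μ u +
        2 * (-(∫ x, u x * w x ∂μ)) * Nf μ u * (∫ x, u x * w x ∂μ) + Nf μ u ^ 2 * Nf μ w =
        Nf μ u * (Nf μ u * Nf μ w - (∫ x, u x * w x ∂μ) ^ 2) := by ring
    rw [h2] at h1
    exact (pos_iff_pos_of_mul_pos h1).1 hNu
  have hset : {q : ℝ | ∃ v ∈ W, v ≠ 0 ∧ q = Qf μ ν V α v / Nf μ v} = RS2 μ ν V α u w := by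
    ext q
    constructor
    · rintro ⟨v, hv, hv0, rfl⟩
      obtain ⟨s, t, rfl⟩ := hrep v hv
      refine ⟨s, t, ?_, rfl⟩
      by_contra h
      push Not at h
      apply hv0
      rw [h.1, h.2]
      simp
    · rintro ⟨a, b, hab, rfl⟩
      exact ⟨a • u + b • w, W.add_mem (W.smul_mem _ huV) (W.smul_mem _ hwV),
        ne_zero_of_Nf (hpos a b hab), rfl⟩
  rw [hset] at hbdd ⊢
  exact ⟨u, w, hu1, hw1, hG, isLUB_csSup ⟨_, 1, 0, Or.inl one_ne_zero, rfl⟩ hbdd⟩

theorem glb2 (hμ : Good μ) (hν : Good ν) (hV : Pot μ V) (hα : 0 ≤ α)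
    (hne : (lset μ ν V α 2).Nonempty) : IsGLB (B2 μ ν V α) (lamf μ ν V α 2) := by
  constructor
  · intro t ht
    exact csInf_le (lset_bdd hμ hV hα 2) (B2_sub hμ ht)
  · intro b hb
    exact le_csInf hne fun r hr => hb (lset2_sub hμ hν hV hα hr)

/-- positivity on open sets -/
theorem pos_open {Ω : Set (En 2)} (ho : IsOpen Ω) (hμ : Good (volume.restrict Ω)) {v : En 2 → ℝ}
    (hv : Continuous v) {x : En 2} (hx : x ∈ Ω) (hvx : v x ≠ 0) :
    0 < Nf (volume.restrict Ω) v := by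
  unfold Nf
  rw [integral_pos_iff_support_of_nonneg (fun p => sq_nonneg _) (hμ _ (hv.pow 2))]
  have hopen : IsOpen (Function.support (fun p => v p ^ 2)) :=
    (hv.pow 2).isOpen_support
  rw [Measure.restrict_apply hopen.measurableSet]
  exact (hopen.inter ho).measure_pos _ ⟨x, by simpa using hvx, hx⟩

theorem lset2_nonempty {Ω : Set (En 2)} (ho : IsOpen Ω) (hne : Ω.Nonempty)
    (hμ : Good (volume.restrict Ω)) : (lset (volume.restrict Ω) ν V α 2).Nonempty := by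
  refine lset2_ne (u := fun _ => 1) (w := fun p => p 0) contDiff_const x0_contDiff ?_
  intro s t hst
  obtain ⟨x, hx⟩ := hne
  have hcont : Continuous (s • (fun _ : En 2 => (1 : ℝ)) + t • (fun p : En 2 => p 0)) := by
    have := coord_cont 0
    fun_prop
  by_cases h : (s • (fun _ : En 2 => (1 : ℝ)) + t • (fun p : En 2 => p 0)) x = 0
  · -- move in the first direction
    have ht : t ≠ 0 := by
      rintro rfl
      simp at h
      apply hst
      rw [h]; ring
    have hc : Continuous fun r : ℝ => x + r • (EuclideanSpace.single (0 : Fin 2) (1 : ℝ)) := by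
      fun_prop
    have h2 : ∀ᶠ r : ℝ in 𝓝 0, x + r • (EuclideanSpace.single (0 : Fin 2) (1 : ℝ)) ∈ Ω := by
      apply hc.continuousAt.eventually_mem
      rw [zero_smul, add_zero]
      exact ho.mem_nhds hx
    obtain ⟨r, hr1, hr2⟩ := ((h2.filter_mono nhdsWithin_le_nhds).and
      (self_mem_nhdsWithin (s := Ioi (0 : ℝ)))).exists
    refine pos_open ho hμ hcont hr1 ?_
    simp only [Pi.add_apply, Pi.smul_apply, smul_eq_mul] at h ⊢
    simp only [PiLp.add_apply, PiLp.smul_apply, EuclideanSpace.single_apply, if_true, smul_eq_mul]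
    intro h3
    have h4 : t * r = 0 := by linarith
    rcases mul_eq_zero.1 h4 with h5 | h5
    · exact ht h5
    · exact (ne_of_gt hr2) h5
  · exact pos_open ho hμ hcont hx h

theorem cst : Real.pi ^ ((1 : ℝ) / 2) / Real.Gamma (1 / 2 + 1) / 2 ^ (1 : ℝ) = 1 := by
  rw [Real.Gamma_add_one (by norm_num), Real.Gamma_one_half_eq, Real.sqrt_eq_rpow, Real.rpow_one]
  have : 0 < Real.pi ^ ((1 : ℝ) / 2) := Real.rpow_pos_of_pos Real.pi_pos _
  field_simp

end Pool.Agent.H751R3.Gap
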